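import Pool.Agent.H43.Nu2.Robust

/-!
Two-sided gluing of states (MP_1e71f9_co): a left block and a mirrored right block on widely
separated scales.
-/

set_option autoImplicit false

namespace Pool.Agent.H43.Nu2

open Finset Pool.Agent.H67.Nu

/-- Gluing of a left block and a mirrored right block: if the rows reached from the two sides
overlap (or meet with different signs) then the sign vector is dead. -/
theorem exists_glue_scale (x z : ℕ → ℕ → ℝ) (n1 n2 r : ℕ) :
    ∃ M : ℝ, 1 ≤ M ∧ ∀ x' : ℕ → ℕ → ℝ, (∀ j < n1, x' j = x j) →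
      (∀ j < n2, ∀ i < r, x' (n1 + j) i = z j (r - 1 - i) * M ^ i) →
      ∀ (s : ℕ → Bool) (a a' : ℕ) (ε ε' : Bool), a ≤ r → a' ≤ r →
        St x n1 s a ε → St z n2 (fun j => s (n1 + j)) a' ε' →
        (r + 2 ≤ a + a' ∨ (a + a' = r + 1 ∧ ε ≠ ε')) → Dead x' (n1 + n2) r s := by
  classical
  let pat : (m : ℕ) → (Fin m → Bool) → ℕ → Bool :=
    fun m t j => if h : j < m then t ⟨j, h⟩ else true
  -- quantitative states on both sides
  have hall : ∀ (y : ℕ → ℕ → ℝ) (m : ℕ) (p : (Fin m → Bool) × Fin (r + 1) × Bool),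
      ∃ κ : ℝ, 0 < κ ∧ (St y m (pat m p.1) p.2.1 p.2.2 → ∀ c : ℕ → ℝ,
        (∀ j < m, 0 ≤ sg (pat m p.1 j) * ∑ i ∈ range r, c i * y j i) →
        ∀ i < r, κ * |c i| ≤ max (∑ k ∈ Ico (p.2.1 : ℕ) r, |c k|)
          (sg p.2.2 * c ((p.2.1 : ℕ) - 1))) := by
    intro y m p
    by_cases hp : St y m (pat m p.1) p.2.1 p.2.2
    · obtain ⟨κ, h1, h2⟩ := exists_robust y m p.2.1 r (pat m p.1) p.2.2
        (Nat.lt_succ_iff.1 p.2.1.2) hp
      exact ⟨κ, h1, fun _ => h2⟩
    · exact ⟨1, one_pos, fun h => absurd h hp⟩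
  choose κ hκ0 hκ using hall
  let M : ℝ := 1 + ∑ p : (Fin n1 → Bool) × Fin (r + 1) × Bool,
    ∑ q : (Fin n2 → Bool) × Fin (r + 1) × Bool, ((r : ℝ) * r + 2) / (κ x n1 p * κ z n2 q)
  have hterm : ∀ p q, 0 ≤ ((r : ℝ) * r + 2) / (κ x n1 p * κ z n2 q) := fun p q =>
    div_nonneg (by positivity) (mul_pos (hκ0 x n1 p) (hκ0 z n2 q)).le
  have hM1 : 1 ≤ M := by
    have : 0 ≤ ∑ p : (Fin n1 → Bool) × Fin (r + 1) × Bool,
        ∑ q : (Fin n2 → Bool) × Fin (r + 1) × Bool,
          ((r : ℝ) * r + 2) / (κ x n1 p * κ z n2 q) :=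
      sum_nonneg fun p _ => sum_nonneg fun q _ => hterm p q
    simp only [M]; linarith
  have hMp : ∀ p q, ((r : ℝ) * r + 2) / (κ x n1 p * κ z n2 q) ≤ M := by
    intro p q
    have h1 : ((r : ℝ) * r + 2) / (κ x n1 p * κ z n2 q) ≤
        ∑ q' : (Fin n2 → Bool) × Fin (r + 1) × Bool,
          ((r : ℝ) * r + 2) / (κ x n1 p * κ z n2 q') :=
      single_le_sum (f := fun q' => ((r : ℝ) * r + 2) / (κ x n1 p * κ z n2 q'))
        (fun q' _ => hterm p q') (mem_univ q)
    have h2 : ∑ q' : (Fin n2 → Bool) × Fin (r + 1) × Bool,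
          ((r : ℝ) * r + 2) / (κ x n1 p * κ z n2 q') ≤
        ∑ p' : (Fin n1 → Bool) × Fin (r + 1) × Bool,
          ∑ q' : (Fin n2 → Bool) × Fin (r + 1) × Bool,
            ((r : ℝ) * r + 2) / (κ x n1 p' * κ z n2 q') :=
      single_le_sum (f := fun p' => ∑ q' : (Fin n2 → Bool) × Fin (r + 1) × Bool,
          ((r : ℝ) * r + 2) / (κ x n1 p' * κ z n2 q'))
        (fun p' _ => sum_nonneg fun q' _ => hterm p' q') (mem_univ p)
    simp only [M]; linarith
  refine ⟨M, hM1, ?_⟩
  intro x' hx' hxr s a a' ε ε' ha ha' hSt hSt' hcase c hc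
  by_contra hcon
  push Not at hcon
  have hM0 : 0 < M := lt_of_lt_of_le one_pos hM1
  -- the patterns
  let tl : Fin n1 → Bool := fun j => s j
  let tr : Fin n2 → Bool := fun j => s (n1 + j)
  have hpl : ∀ j < n1, pat n1 tl j = s j := by intro j hj; simp [pat, tl, hj]
  have hpr : ∀ j < n2, pat n2 tr j = s (n1 + j) := by intro j hj; simp [pat, tr, hj]
  let p : (Fin n1 → Bool) × Fin (r + 1) × Bool := (tl, ⟨a, by omega⟩, ε)
  let q : (Fin n2 → Bool) × Fin (r + 1) × Bool := (tr, ⟨a', by omega⟩, ε')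
  have hStl : St x n1 (pat n1 tl) a ε := by
    intro c hc h
    refine hSt c hc fun j hj => ?_
    rw [← hpl j hj]; exact h j hj
  have hStr : St z n2 (pat n2 tr) a' ε' := by
    intro c hc h
    refine hSt' c hc fun j hj => ?_
    change 0 ≤ sg (s (n1 + j)) * _
    rw [← hpr j hj]; exact h j hj
  have hL := hκ x n1 p hStl c (fun j hj => by
    have h1 := hcon j (by omega)
    rw [hx' j hj] at h1
    change 0 ≤ sg (pat n1 tl j) * _
    rw [hpl j hj]; exact h1)
  let d : ℕ → ℝ := fun k => c (r - 1 - k) * M ^ (r - 1 - k)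
  have hR := hκ z n2 q hStr d (fun j hj => by
    have h1 := hcon (n1 + j) (by omega)
    change 0 ≤ sg (pat n2 tr j) * _
    rw [hpr j hj]
    have h2 : ∑ i ∈ range r, c i * x' (n1 + j) i = ∑ i ∈ range r, d i * z j i := by
      rw [← sum_range_reflect (fun i => d i * z j i) r]
      refine sum_congr rfl fun i hi => ?_
      have hi' : i < r := mem_range.1 hi
      rw [hxr j hj i hi']
      have h3 : r - 1 - (r - 1 - i) = i := by omega
      simp only [d, h3]
      ring
    rw [h2] at h1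
    exact h1)
  change ∀ i < r, κ x n1 p * |c i| ≤ max (∑ k ∈ Ico a r, |c k|) (sg ε * c (a - 1)) at hL
  change ∀ i < r, κ z n2 q * |d i| ≤ max (∑ k ∈ Ico a' r, |d k|) (sg ε' * d (a' - 1)) at hR
  have ha1 : 1 ≤ a := by omega
  have ha1' : 1 ≤ a' := by omega
  refine glue_aux c r a (r - a') ε ε' (κ x n1 p) (κ z n2 q) M hM1 (hκ0 x n1 p) (hκ0 z n2 q)
    ?_ ha1 ha (by omega) ?_ hc hL ?_
  · have h1 := hMp p q
    rw [div_le_iff₀ (mul_pos (hκ0 x n1 p) (hκ0 z n2 q))] at h1
    linarith [mul_comm M (κ x n1 p * κ z n2 q)]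
  · rcases hcase with h1 | ⟨h1, h2⟩
    · left; omega
    · right; exact ⟨by omega, h2⟩
  · intro i hi
    have h1 := hR (r - 1 - i) (by omega)
    have h2 : r - 1 - (r - 1 - i) = i := by omega
    have h3 : |d (r - 1 - i)| = |c i| * M ^ i := by
      simp only [d, h2]
      rw [abs_mul, abs_of_pos (pow_pos hM0 i)]
    have h4 : d (a' - 1) = c (r - a') * M ^ (r - a') := by
      have : r - 1 - (a' - 1) = r - a' := by omega
      simp only [d, this]
    have h5 : ∑ k ∈ Ico a' r, |d k| = ∑ k ∈ range (r - a'), |c k| * M ^ k := by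
      have h6 : ∑ k ∈ Ico a' r, |d k| = ∑ k ∈ range (r - a'), |d (a' + k)| := by
        rw [sum_Ico_eq_sum_range]
      rw [h6, ← sum_range_reflect]
      refine sum_congr rfl fun k hk => ?_
      have hk' : k < r - a' := mem_range.1 hk
      have h7 : r - 1 - (a' + (r - a' - 1 - k)) = k := by omega
      simp only [d, h7]
      rw [abs_mul, abs_of_pos (pow_pos hM0 k)]
    rw [h3, h4, h5] at h1
    calc κ z n2 q * (|c i| * M ^ i)
        ≤ max (∑ k ∈ range (r - a'), |c k| * M ^ k)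
          (sg ε' * (c (r - a') * M ^ (r - a'))) := h1
      _ = _ := by rw [mul_assoc (sg ε')]

/-- A state above the row `r` is dead in rank `r`. -/
theorem dead_of_st {x : ℕ → ℕ → ℝ} {n : ℕ} {s : ℕ → Bool} {a r : ℕ} {ε : Bool}
    (h : St x n s a ε) (hr : r < a) : Dead x n r s := by
  intro c hc
  by_contra hcon
  push Not at hcon
  have key := h (fun i => if i < r then c i else 0) ?_ ?_
  · have : ¬ a - 1 < r := by omega
    simp [this] at key
  · obtain ⟨i, hi, hci⟩ := hc
    exact ⟨i, by omega, by simpa [hi] using hci⟩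
  · intro j hj
    have e : ∑ i ∈ range a, (if i < r then c i else 0) * x j i = ∑ i ∈ range r, c i * x j i := by
      rw [← Finset.sum_subset (s₁ := range r) (s₂ := range a)]
      · exact Finset.sum_congr rfl fun i hi => by simp [Finset.mem_range.1 hi]
      · exact Finset.range_subset_range.2 hr.le
      · intro i _ hi
        have : ¬ i < r := fun h' => hi (Finset.mem_range.2 h')
        simp [this]
    rw [e]
    exact hcon j hj

/-- Gluing of a left block and a mirrored right block. -/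
theorem exists_glue (x z : ℕ → ℕ → ℝ) (n1 n2 r : ℕ) :
    ∃ x' : ℕ → ℕ → ℝ, ∀ (s : ℕ → Bool) (a a' : ℕ) (ε ε' : Bool),
      St x n1 s a ε → St z n2 (fun j => s (n1 + j)) a' ε' →
      (r + 2 ≤ a + a' ∨ (a + a' = r + 1 ∧ ε ≠ ε')) → Dead x' (n1 + n2) r s := by
  obtain ⟨M, hM1, hM⟩ := exists_glue_scale x z n1 n2 r
  have hM0 : 0 < M := lt_of_lt_of_le one_pos hM1
  let x' : ℕ → ℕ → ℝ := fun j i => if j < n1 then x j i else z (j - n1) (r - 1 - i) * M ^ i
  have hx1 : ∀ j < n1, x' j = x j := by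
    intro j hj; funext i; simp [x', hj]
  have hx2 : ∀ j < n2, ∀ i < r, x' (n1 + j) i = z j (r - 1 - i) * M ^ i := by
    intro j _ i _
    have h1 : ¬ n1 + j < n1 := by omega
    have h2 : n1 + j - n1 = j := by omega
    simp only [x', if_neg h1, h2]
  refine ⟨x', fun s a a' ε ε' hSt hSt' hcase => ?_⟩
  rcases lt_or_ge r a with ha | ha
  · intro c hc
    obtain ⟨j, hj, hlt⟩ := dead_of_st hSt ha c hc
    refine ⟨j, by omega, ?_⟩
    rw [hx1 j hj]; exact hlt
  · rcases lt_or_ge r a' with ha' | ha'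
    · intro c hc
      have hD := dead_of_st hSt' ha'
      obtain ⟨i0, hi0, hci0⟩ := hc
      let d : ℕ → ℝ := fun k => c (r - 1 - k) * M ^ (r - 1 - k)
      obtain ⟨j, hj, hlt⟩ := hD d ⟨r - 1 - i0, by omega, by
        have h2 : r - 1 - (r - 1 - i0) = i0 := by omega
        simp only [d, h2]
        exact mul_ne_zero hci0 (pow_pos hM0 _).ne'⟩
      refine ⟨n1 + j, by omega, ?_⟩
      have h2 : ∑ i ∈ range r, c i * x' (n1 + j) i = ∑ i ∈ range r, d i * z j i := by
        rw [← sum_range_reflect (fun i => d i * z j i) r]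
        refine sum_congr rfl fun i hi => ?_
        have hi' : i < r := mem_range.1 hi
        rw [hx2 j hj i hi']
        have h3 : r - 1 - (r - 1 - i) = i := by omega
        simp only [d, h3]
        ring
      rw [h2]
      exact hlt
    · exact hM x' hx1 hx2 s a a' ε ε' ha ha' hSt hSt' hcase

end Pool.Agent.H43.Nu2
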