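import Pool.Agent.H67.Nu.Column

/-!
Quantitative states and the inequality behind the two-sided gluing (MP_1e71f9_co).
-/

set_option autoImplicit false

namespace Pool.Agent.H43.Nu2

open Finset Pool.Agent.H67.Nu

/-- Quantitative form of a state, all `r` rows being used. -/
theorem exists_robust (x : ℕ → ℕ → ℝ) (n a r : ℕ) (s : ℕ → Bool) (ε : Bool) (ha : a ≤ r)
    (h : St x n s a ε) :
    ∃ κ : ℝ, 0 < κ ∧ ∀ c : ℕ → ℝ,
      (∀ j < n, 0 ≤ sg (s j) * ∑ i ∈ range r, c i * x j i) →
      ∀ i < r, κ * |c i| ≤ max (∑ k ∈ Ico a r, |c k|) (sg ε * c (a - 1)) := by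
  classical
  let ext : (Fin r → ℝ) → ℕ → ℝ := fun c i => if hi : i < r then c ⟨i, hi⟩ else 0
  have hext : ∀ i, Continuous fun c : Fin r → ℝ => ext c i := by
    intro i
    by_cases hi : i < r
    · have : (fun c : Fin r → ℝ => ext c i) = fun c => c ⟨i, hi⟩ := by
        funext c; exact dif_pos hi
      rw [this]; exact continuous_apply _
    · have : (fun c : Fin r → ℝ => ext c i) = fun _ => (0 : ℝ) := by
        funext c; exact dif_neg hi
      rw [this]; exact continuous_const
  let K : Set (Fin r → ℝ) :=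
    Metric.sphere 0 1 ∩ {c | ∀ j < n, 0 ≤ sg (s j) * ∑ i ∈ range r, ext c i * x j i}
  have hKc : IsCompact K := by
    refine (isCompact_sphere _ _).inter_right ?_
    have : {c : Fin r → ℝ | ∀ j < n, 0 ≤ sg (s j) * ∑ i ∈ range r, ext c i * x j i}
        = ⋂ j : ℕ, ⋂ _ : j < n, {c | 0 ≤ sg (s j) * ∑ i ∈ range r, ext c i * x j i} := by
      ext c; simp
    rw [this]
    refine isClosed_iInter fun j => isClosed_iInter fun _ => ?_
    refine isClosed_le continuous_const (continuous_const.mul ?_)
    exact continuous_finsetSum _ fun i _ => (hext i).mul continuous_const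
  let g : (Fin r → ℝ) → ℝ := fun c => max (∑ k ∈ Ico a r, |ext c k|) (sg ε * ext c (a - 1))
  have hg : Continuous g :=
    (continuous_finsetSum _ fun k _ => (hext k).abs).max (continuous_const.mul (hext (a - 1)))
  have hpos : ∀ c ∈ K, 0 < g c := by
    intro c hc
    by_cases htail : ∀ k ∈ Ico a r, ext c k = 0
    · have hne : ∃ i < a, ext c i ≠ 0 := by
        by_contra hcon
        push Not at hcon
        have hc0 : c = 0 := by
          funext i
          have hi := i.2
          have h3 : ext c (i : ℕ) = c i := dif_pos hi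
          rcases lt_or_ge (i : ℕ) a with h1 | h1
          · have h2 := hcon i h1
            rw [h3] at h2; exact h2
          · have h2 := htail i (mem_Ico.2 ⟨h1, hi⟩)
            rw [h3] at h2; exact h2
        have h1 : ‖c‖ = 1 := by simpa using hc.1
        rw [hc0] at h1
        simp at h1
      have key := h (ext c) hne (fun j hj => by
        have h2 := hc.2 j hj
        have h3 : ∑ i ∈ range r, ext c i * x j i = ∑ i ∈ range a, ext c i * x j i := by
          rw [← sum_range_add_sum_Ico _ ha]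
          have : ∑ k ∈ Ico a r, ext c k * x j k = 0 :=
            sum_eq_zero fun k hk => by rw [htail k hk, zero_mul]
          rw [this, add_zero]
        rw [h3] at h2
        exact h2)
      exact lt_of_lt_of_le key (le_max_right _ _)
    · push Not at htail
      obtain ⟨k, hk, hck⟩ := htail
      have h1 : 0 < ∑ k ∈ Ico a r, |ext c k| :=
        lt_of_lt_of_le (abs_pos.2 hck)
          (single_le_sum (f := fun k => |ext c k|) (fun i _ => abs_nonneg _) hk)
      exact lt_of_lt_of_le h1 (le_max_left _ _)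
  obtain ⟨κ, hκ, hκK⟩ : ∃ κ : ℝ, 0 < κ ∧ ∀ c ∈ K, κ ≤ g c := by
    rcases K.eq_empty_or_nonempty with hK | hK
    · exact ⟨1, one_pos, by simp [hK]⟩
    · obtain ⟨c0, hc0, hmin⟩ := hKc.exists_isMinOn hK hg.continuousOn
      exact ⟨g c0, hpos c0 hc0, fun c hc => hmin hc⟩
  refine ⟨κ, hκ, fun c hc i hi => ?_⟩
  let d : Fin r → ℝ := fun k => c k
  have hed : ∀ k < r, ext d k = c k := by
    intro k hk; exact dif_pos hk
  by_cases hd : d = 0
  · have hci : c i = 0 := by
      have := congrFun hd ⟨i, hi⟩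
      simpa [d] using this
    rw [hci]
    simp only [abs_zero, mul_zero]
    exact le_trans (sum_nonneg fun k _ => abs_nonneg _) (le_max_left _ _)
  · have hn : 0 < ‖d‖ := norm_pos_iff.2 hd
    have hext2 : ∀ k < r, ext (‖d‖⁻¹ • d) k = ‖d‖⁻¹ * c k := by
      intro k hk
      have h3 : ext (‖d‖⁻¹ • d) k = (‖d‖⁻¹ • d) ⟨k, hk⟩ := dif_pos hk
      rw [h3]; rfl
    have hK : ‖d‖⁻¹ • d ∈ K := by
      refine ⟨?_, ?_⟩
      · simp [norm_smul, hn.ne']
      · intro j hj
        have h1 := hc j hj
        have h2 : ∑ k ∈ range r, ext (‖d‖⁻¹ • d) k * x j k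
            = ‖d‖⁻¹ * ∑ k ∈ range r, c k * x j k := by
          rw [mul_sum]
          refine sum_congr rfl fun k hk => ?_
          rw [hext2 k (mem_range.1 hk)]; ring
        rw [h2]
        have : sg (s j) * (‖d‖⁻¹ * ∑ k ∈ range r, c k * x j k)
            = ‖d‖⁻¹ * (sg (s j) * ∑ k ∈ range r, c k * x j k) := by ring
        rw [this]
        exact mul_nonneg (inv_nonneg.2 hn.le) h1
    have h3 := hκK _ hK
    have h4 : g (‖d‖⁻¹ • d) = ‖d‖⁻¹ * max (∑ k ∈ Ico a r, |c k|) (sg ε * c (a - 1)) := by
      simp only [g]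
      have e1 : ∑ k ∈ Ico a r, |ext (‖d‖⁻¹ • d) k| = ‖d‖⁻¹ * ∑ k ∈ Ico a r, |c k| := by
        rw [mul_sum]
        refine sum_congr rfl fun k hk => ?_
        rw [hext2 k (mem_Ico.1 hk).2, abs_mul, abs_of_pos (inv_pos.2 hn)]
      rw [e1, hext2 (a - 1) (by omega), mul_max_of_nonneg _ _ (inv_nonneg.2 hn.le)]
      congr 1
      ring
    rw [h4] at h3
    have h5 : κ * ‖d‖ ≤ max (∑ k ∈ Ico a r, |c k|) (sg ε * c (a - 1)) := by
      have := mul_le_mul_of_nonneg_right h3 hn.le
      rwa [mul_comm (‖d‖⁻¹ * _) ‖d‖, ← mul_assoc, mul_inv_cancel₀ hn.ne', one_mul] at this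
    have h6 : |c i| ≤ ‖d‖ := by
      have := norm_le_pi_norm d ⟨i, hi⟩
      simpa [d] using this
    exact le_trans (mul_le_mul_of_nonneg_left h6 hκ.le) h5

/-- The contradiction behind the gluing lemma, for one pair of states. -/
theorem glue_aux (c : ℕ → ℝ) (r a q : ℕ) (ε ε' : Bool) (κ κ' M : ℝ) (hM : 1 ≤ M)
    (hκ : 0 < κ) (hκ' : 0 < κ') (hMκ : (r : ℝ) * r + 1 < κ * κ' * M)
    (ha1 : 1 ≤ a) (ha : a ≤ r) (hq : q + 1 ≤ a)
    (hcase : q + 2 ≤ a ∨ (q + 1 = a ∧ ε ≠ ε'))
    (hne : ∃ i < r, c i ≠ 0)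
    (hL : ∀ i < r, κ * |c i| ≤ max (∑ k ∈ Ico a r, |c k|) (sg ε * c (a - 1)))
    (hR : ∀ i < r, κ' * (|c i| * M ^ i) ≤
      max (∑ k ∈ range q, |c k| * M ^ k) (sg ε' * c q * M ^ q)) : False := by
  have hM0 : 0 < M := lt_of_lt_of_le one_pos hM
  have hr1 : (1 : ℝ) ≤ r := by
    have : 1 ≤ r := le_trans ha1 ha
    exact_mod_cast this
  have hr0 : (0 : ℝ) ≤ r := le_trans zero_le_one hr1
  obtain ⟨i0, hi0, hmax⟩ := exists_max_image (range a) (fun i => |c i|) ⟨0, mem_range.2 (by omega)⟩
  set H := |c i0| with hH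
  have hH0 : 0 ≤ H := abs_nonneg _
  have hi0a : i0 < a := mem_range.1 hi0
  have hHmax : ∀ i < a, |c i| ≤ H := fun i hi => hmax i (mem_range.2 hi)
  have hMa : 0 < M ^ (a - 1) := pow_pos hM0 _
  -- the rows below `q`
  have hlow : (∑ k ∈ range q, |c k| * M ^ k) * M ≤ r * H * M ^ (a - 1) := by
    calc (∑ k ∈ range q, |c k| * M ^ k) * M = ∑ k ∈ range q, |c k| * M ^ (k + 1) := by
          rw [sum_mul]; refine sum_congr rfl fun k _ => ?_; rw [pow_succ]; ring
      _ ≤ ∑ k ∈ range q, H * M ^ (a - 1) := by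
          refine sum_le_sum fun k hk => ?_
          have h1 : k < q := mem_range.1 hk
          exact mul_le_mul (hHmax k (by omega)) (pow_le_pow_right₀ hM (by omega))
            (pow_pos hM0 _).le hH0
      _ = q * (H * M ^ (a - 1)) := by rw [sum_const, card_range, nsmul_eq_mul]
      _ ≤ r * (H * M ^ (a - 1)) := by
          refine mul_le_mul_of_nonneg_right ?_ (mul_nonneg hH0 hMa.le)
          have : q ≤ r := by omega
          exact_mod_cast this
      _ = r * H * M ^ (a - 1) := by ring
  have hqrow : sg ε' * c q * M ^ q ≤ H * M ^ (a - 1) := by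
    have h1 : sg ε' * c q ≤ H := by
      calc sg ε' * c q ≤ |sg ε' * c q| := le_abs_self _
        _ = |c q| := by rw [abs_mul, abs_sg, one_mul]
        _ ≤ H := hHmax q (by omega)
    calc sg ε' * c q * M ^ q ≤ H * M ^ q := mul_le_mul_of_nonneg_right h1 (pow_pos hM0 _).le
      _ ≤ H * M ^ (a - 1) := mul_le_mul_of_nonneg_left (pow_le_pow_right₀ hM (by omega)) hH0
  by_cases hc1 : κ * H ≤ ∑ k ∈ Ico a r, |c k|
  · -- the rows `≥ a` are large
    rcases (Ico a r).eq_empty_or_nonempty with he | hne'
    · rw [he, sum_empty] at hc1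
      have hH' : H = 0 := by nlinarith
      obtain ⟨i, hi, hci⟩ := hne
      have hia : i < a := by
        by_contra hcon
        have : i ∈ Ico a r := mem_Ico.2 ⟨by omega, hi⟩
        rw [he] at this; simp at this
      have := hHmax i hia
      rw [hH'] at this
      exact hci (abs_nonpos_iff.1 this)
    · obtain ⟨k0, hk0, hkmax⟩ := exists_max_image (Ico a r) (fun i => |c i|) hne'
      set T := |c k0| with hT
      have hk0' := mem_Ico.1 hk0
      have hsumT : ∑ k ∈ Ico a r, |c k| ≤ r * T := by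
        calc ∑ k ∈ Ico a r, |c k| ≤ ∑ k ∈ Ico a r, T := sum_le_sum fun k hk => hkmax k hk
          _ = ((r - a : ℕ) : ℝ) * T := by rw [sum_const, Nat.card_Ico, nsmul_eq_mul]
          _ ≤ r * T := by
              refine mul_le_mul_of_nonneg_right ?_ (abs_nonneg _)
              have : r - a ≤ r := Nat.sub_le _ _
              exact_mod_cast this
      have hT0 : 0 < T := by
        rcases (abs_nonneg (c k0)).lt_or_eq with h1 | h1
        · exact h1
        · exfalso
          have hT' : T = 0 := h1.symm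
          rw [hT', mul_zero] at hsumT
          have hH' : H = 0 := by nlinarith
          obtain ⟨i, hi, hci⟩ := hne
          rcases lt_or_ge i a with hia | hia
          · have := hHmax i hia
            rw [hH'] at this
            exact hci (abs_nonpos_iff.1 this)
          · have := hkmax i (mem_Ico.2 ⟨hia, hi⟩)
            change |c i| ≤ T at this
            rw [hT'] at this
            exact hci (abs_nonpos_iff.1 this)
      have h2 := hR k0 hk0'.2
      have h3 : κ' * (T * M ^ (a - 1) * M) ≤ κ' * (|c k0| * M ^ k0) := by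
        refine mul_le_mul_of_nonneg_left ?_ hκ'.le
        have : M ^ (a - 1) * M ≤ M ^ k0 := by
          rw [← pow_succ]; exact pow_le_pow_right₀ hM (by omega)
        calc T * M ^ (a - 1) * M = T * (M ^ (a - 1) * M) := by ring
          _ ≤ T * M ^ k0 := mul_le_mul_of_nonneg_left this hT0.le
      have h4 : max (∑ k ∈ range q, |c k| * M ^ k) (sg ε' * c q * M ^ q)
          ≤ r * H * M ^ (a - 1) := by
        refine max_le ?_ ?_
        · have h5 : 0 ≤ ∑ k ∈ range q, |c k| * M ^ k :=
            sum_nonneg fun k _ => mul_nonneg (abs_nonneg _) (pow_pos hM0 _).le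
          nlinarith
        · refine le_trans hqrow ?_
          nlinarith [mul_nonneg hH0 hMa.le]
      have h6 : κ' * (T * M ^ (a - 1) * M) ≤ r * H * M ^ (a - 1) := le_trans h3 (le_trans h2 h4)
      have h7 : κ' * T * M ≤ r * H := by
        have : (κ' * T * M) * M ^ (a - 1) ≤ (r * H) * M ^ (a - 1) := by nlinarith
        exact le_of_mul_le_mul_right this hMa
      have h8 : κ * (κ' * T * M) ≤ κ * (r * H) := mul_le_mul_of_nonneg_left h7 hκ.le
      have h9 : κ * H ≤ r * T := le_trans hc1 hsumT
      have h10 : κ * (r * H) ≤ r * (r * T) := by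
        calc κ * (r * H) = r * (κ * H) := by ring
          _ ≤ r * (r * T) := mul_le_mul_of_nonneg_left h9 hr0
      have h11 : (κ * κ' * M) * T ≤ (r * r) * T := by nlinarith
      have h12 : κ * κ' * M ≤ r * r := le_of_mul_le_mul_right h11 hT0
      linarith
  · -- the sign of the row `a - 1` is forced
    have hc2 : κ * H ≤ sg ε * c (a - 1) := by
      rcases le_max_iff.1 (hL i0 (by omega)) with h1 | h1
      · exact absurd h1 hc1
      · exact h1
    have hHpos : 0 < H := by
      rcases hH0.lt_or_eq with h1 | h1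
      · exact h1
      · exfalso
        apply hc1
        rw [← h1, mul_zero]
        exact sum_nonneg fun k _ => abs_nonneg _
    have hεc : 0 < sg ε * c (a - 1) := lt_of_lt_of_le (mul_pos hκ hHpos) hc2
    have habs : κ * H ≤ |c (a - 1)| := by
      calc κ * H ≤ sg ε * c (a - 1) := hc2
        _ ≤ |sg ε * c (a - 1)| := le_abs_self _
        _ = |c (a - 1)| := by rw [abs_mul, abs_sg, one_mul]
    have h2 := hR (a - 1) (by omega)
    have h3 : κ' * (κ * H * M ^ (a - 1)) ≤
        max (∑ k ∈ range q, |c k| * M ^ k) (sg ε' * c q * M ^ q) := by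
      refine le_trans (mul_le_mul_of_nonneg_left ?_ hκ'.le) h2
      exact mul_le_mul_of_nonneg_right habs hMa.le
    have hP : 0 < H * M ^ (a - 1) := mul_pos hHpos hMa
    rcases le_max_iff.1 h3 with h4 | h4
    · have h5 : κ' * (κ * H * M ^ (a - 1)) * M ≤ r * H * M ^ (a - 1) :=
        le_trans (mul_le_mul_of_nonneg_right h4 hM0.le) hlow
      have h6 : (κ * κ' * M) * (H * M ^ (a - 1)) ≤ r * (H * M ^ (a - 1)) := by nlinarith
      have h7 : κ * κ' * M ≤ r := le_of_mul_le_mul_right h6 hP
      nlinarith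
    · rcases hcase with h5 | ⟨h5, h6⟩
      · have h7 : sg ε' * c q * M ^ q * M ≤ H * M ^ (a - 1) := by
          have h8 : sg ε' * c q ≤ H := by
            calc sg ε' * c q ≤ |sg ε' * c q| := le_abs_self _
              _ = |c q| := by rw [abs_mul, abs_sg, one_mul]
              _ ≤ H := hHmax q (by omega)
          calc sg ε' * c q * M ^ q * M = sg ε' * c q * M ^ (q + 1) := by rw [pow_succ]; ring
            _ ≤ H * M ^ (q + 1) := mul_le_mul_of_nonneg_right h8 (pow_pos hM0 _).le
            _ ≤ H * M ^ (a - 1) :=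
              mul_le_mul_of_nonneg_left (pow_le_pow_right₀ hM (by omega)) hH0
        have h9 : κ' * (κ * H * M ^ (a - 1)) * M ≤ H * M ^ (a - 1) :=
          le_trans (mul_le_mul_of_nonneg_right h4 hM0.le) h7
        have h10 : (κ * κ' * M) * (H * M ^ (a - 1)) ≤ 1 * (H * M ^ (a - 1)) := by nlinarith
        have h11 : κ * κ' * M ≤ 1 := le_of_mul_le_mul_right h10 hP
        nlinarith
      · have hqa : q = a - 1 := by omega
        rw [hqa] at h4
        have h7 : 0 < sg ε' * c (a - 1) * M ^ (a - 1) :=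
          lt_of_lt_of_le (mul_pos hκ' (mul_pos (mul_pos hκ hHpos) hMa)) h4
        have h8 : 0 < sg ε' * c (a - 1) := by
          by_contra hcon
          push Not at hcon
          have := mul_nonpos_of_nonpos_of_nonneg hcon hMa.le
          linarith
        apply h6
        cases ε <;> cases ε' <;> simp [sg] at hεc h8 ⊢ <;> linarith

end Pool.Agent.H43.Nu2
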